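import Pool.Agent.Y578.OL.Unary

set_option autoImplicit false

/-!
# Constrained outerplane Laman graphs: the problem

A point of the plane with integer coordinates is a `Pool.Agent.H883R2.OL.Pt`, an edge is a two
element set of points. `Pool.Agent.H883R2.OL.OuterplaneLaman S E` says that `E` is the edge set of an
outerplane Laman graph on `S` and `Pool.Agent.H883R2.OL.weight E` is the sum of the lengths.
-/

namespace Pool.Agent.Q226.OL

open Pool.Agent.NPC Pool.Agent.H883R2.OL Pool.Agent.Y578.OL

/-- The subset of the real plane covered by a drawing on `S` with the edges `D`: the points of `S`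
and the closed segments. -/
def body (S : Finset Pt) (D : Finset (Finset Pt)) : Set (ℝ × ℝ) :=
  toR '' (S : Set Pt) ∪ ⋃ e ∈ D, convexHull ℝ (toR '' (e : Set Pt))

/-- The unbounded face of a drawing: the points outside of the drawing which lie in an unbounded
connected component of the complement of the drawing. -/
def outerFace (S : Finset Pt) (D : Finset (Finset Pt)) : Set (ℝ × ℝ) :=
  {x | x ∈ (body S D)ᶜ ∧ ¬ Bornology.IsBounded (connectedComponentIn (body S D)ᶜ x)}

/-- `D` is the edge set of an outerplane drawing on `S`: its edges are segments between two points
of `S` which contain no other point of `S`, two edges meet only in their common end points, and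
every point of `S` lies on the boundary of the unbounded face. -/
structure Outerplane (S : Finset Pt) (D : Finset (Finset Pt)) : Prop where
  /-- the end points are in `S` -/
  sub : ∀ e ∈ D, e ⊆ S
  /-- an edge has two end points -/
  card2 : ∀ e ∈ D, e.card = 2
  /-- no other point of `S` lies on an edge -/
  free : ∀ e ∈ D, ∀ p ∈ S, toR p ∈ convexHull ℝ (toR '' (e : Set Pt)) → p ∈ e
  /-- the drawing is plane -/
  plane : ∀ e ∈ D, ∀ e' ∈ D, convexHull ℝ (toR '' (e : Set Pt)) ∩ convexHull ℝ (toR '' (e' : Set Pt)) =
    convexHull ℝ (toR '' ((e ∩ e' : Finset Pt) : Set Pt))
  /-- all points are on the boundary of the unbounded face -/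
  outer : ∀ p ∈ S, toR p ∈ frontier (outerFace S D)

/-- `E` is the edge set of a `D`-constrained outerplane Laman graph on `S`. -/
def ConstrainedLaman (S : Finset Pt) (D E : Finset (Finset Pt)) : Prop :=
  OuterplaneLaman S E ∧ D ⊆ E

/-- A natural number in unary, as a list of units. -/
abbrev Un := List Unit

/-- The integer point given by two numbers in unary. -/
def upt (p : Un × Un) : Pt := ((p.1.length : ℤ), (p.2.length : ℤ))

/-- An instance: the list of the points, the list of the edges of the drawing (each one given by
its two end points) and the bound for the weight, all numbers being in unary. -/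
abbrev Inst := (List (Un × Un) × List ((Un × Un) × (Un × Un))) × Un

/-- The set of points of an instance. -/
def Inst.pts (x : Inst) : Finset Pt := (x.1.1.map upt).toFinset

/-- The edge set of the drawing of an instance. -/
def Inst.drawing (x : Inst) : Finset (Finset Pt) :=
  (x.1.2.map (fun e => ({upt e.1, upt e.2} : Finset Pt))).toFinset

/-- The instance is legal: the listed points are pairwise different and the drawing is an outerplane
drawing on them. -/
def Legal (x : Inst) : Prop := x.1.1.Nodup ∧ Outerplane x.pts x.drawing

/-- The decision version: is there a constrained outerplane Laman graph of weight at most the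
bound? -/
def Light (x : Inst) : Prop :=
  ∃ E, ConstrainedLaman x.pts x.drawing E ∧ weight E ≤ (x.2.length : ℝ)

/-- The drawing of the instance has no edges. -/
def NoEdges (x : Inst) : Prop := x.1.2 = []

end Pool.Agent.Q226.OL
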