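import Pool.Agent.Q226.OL.Defs
import Pool.Agent.Y578.OL.Main

set_option autoImplicit false

/-!
# Constrained outerplane Laman graphs: the drawing without edges and the reduction
-/

namespace Pool.Agent.Q226.OL

open Pool.Agent.NPC Pool.Agent.NPC.R671 Pool.Agent.H883R2.OL Pool.Agent.Y578.OL

theorem frontier_compl_finite {F : Set (ℝ × ℝ)} (hF : F.Finite) : frontier Fᶜ = F := by
  rw [frontier_compl, frontier, hF.isClosed.closure_eq]
  have : interior F = ∅ := by
    have h := hF.countable.dense_compl ℝ
    rwa [← interior_eq_empty_iff_dense_compl] at h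
  rw [this, Set.sdiff_empty]

theorem outerFace_nil (S : Finset Pt) : outerFace S ∅ = (toR '' (S : Set Pt))ᶜ := by
  have hb : body S ∅ = toR '' (S : Set Pt) := by
    unfold body; simp
  unfold outerFace
  rw [hb]
  have hfin : (toR '' (S : Set Pt)).Finite := S.finite_toSet.image _
  have hconn : IsConnected (toR '' (S : Set Pt))ᶜ := by
    refine (hfin.countable.isPathConnected_compl_of_one_lt_rank ?_).isConnected
    rw [rank_prod']
    simp
    norm_num
  ext x
  constructor
  · exact fun h => h.1
  · intro h
    refine ⟨h, ?_⟩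
    rw [hconn.isPreconnected.connectedComponentIn h]
    intro hbd
    have h2 : Bornology.IsBounded (Set.univ : Set (ℝ × ℝ)) := by
      have := hbd.union hfin.isBounded
      rwa [Set.compl_union_self] at this
    exact (NormedSpace.unbounded_univ ℝ (ℝ × ℝ)) h2

theorem outerplane_nil (S : Finset Pt) : Outerplane S ∅ where
  sub := by simp
  card2 := by simp
  free := by simp
  plane := by simp
  outer := by
    intro p hp
    rw [outerFace_nil, frontier_compl_finite (S.finite_toSet.image _)]
    exact ⟨p, hp, rfl⟩

/-- The instance without edges. -/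
def noE (x : UInst) : Inst := ((x.1, []), x.2)

theorem upt_eq : (fun p : Un × Un => ((p.1.length : ℤ), (p.2.length : ℤ))) = upt := rfl

theorem light_noE (x : UInst) : Light (noE x) ↔ MinLamanUnary x := by
  unfold Light MinLamanUnary MinLaman ConstrainedLaman noE Inst.pts Inst.drawing numbers
  rw [upt_eq]
  simp

/-- The constrained problem is hard even for drawings without edges, provided the layout is
correct. -/
theorem npHardOn_of_equiv
    (hE : ∀ (K m : ℕ) (inc : ℕ → ℕ → Bool), 2 ≤ K → K % 2 = 0 → 1 ≤ m → ∀ N : ℕ,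
      N = 100 * ((K + 6 * m + 4) * (5 * K)) →
      ((∃ σ, Sats K m inc σ) ↔ ∃ E, OuterplaneLaman (pts N (kd K m inc) (cells K m inc)) E ∧
        weight E ≤ (thr N (kd K m inc) (cells K m inc) : ℝ))) :
    NPHardOn (fun x : Inst => Legal x ∧ NoEdges x) Light := by
  have hp : Poly (fun φ => noE (instU φ)) := by
    unfold noE
    exact NPC.Poly.pair (NPC.Poly.pair (NPC.Poly.fst instU_poly) (NPC.Poly.const _)) (NPC.Poly.snd instU_poly)
  refine toNPHardOn (hardPr_BSat.trans (Pr' := fun x : Inst => Legal x ∧ NoEdges x) hp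
    (fun φ _ => ⟨⟨instU_distinct φ, ?_⟩, rfl⟩) ?_)
  · have : (noE (instU φ)).drawing = ∅ := by simp [noE, Inst.drawing]
    rw [this]
    exact outerplane_nil _
  · rintro φ ⟨h1, h2⟩
    rw [light_noE, bsat_iff, hE (rK φ) (rm φ) (rinc φ) (by unfold rK; omega) (by unfold rK; omega)
      (List.length_pos_iff.2 h1) (rN φ) rfl]
    unfold MinLamanUnary MinLaman
    rw [toFinset_eq, rpts_toFinset, numbers_instU, ← rthr_eq, Int.cast_natCast]

end Pool.Agent.Q226.OL
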